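import Pool.Agent.W821.TB.Rigid

set_option autoImplicit false

namespace Pool.Agent.Results.MP_5027f4_mp.FamiliesThroughStableOrbits

/-- Phase points of `n` bodies in the plane `ℂ`: positions and velocities (product topology). -/
abbrev Ph (n : ℕ) := (Fin n → ℂ) × (Fin n → ℂ)

/-- Newtonian acceleration of body `a`: `∑_{b ≠ a} m_b (q_b - q_a) / |q_b - q_a|^3`. -/
noncomputable def acc {n : ℕ} (m : Fin n → ℝ) (q : Fin n → ℂ) (a : Fin n) : ℂ :=
  ∑ b ∈ Finset.univ.erase a, ((m b / ‖q b - q a‖ ^ 3 : ℝ) : ℂ) * (q b - q a)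

/-- Total energy: kinetic energy minus the sum over pairs of `m_a m_b / |q_b - q_a|` (each pair occurs
twice in the double sum, which is halved). -/
noncomputable def energy {n : ℕ} (m : Fin n → ℝ) (z : Ph n) : ℝ :=
  (∑ a, m a * ‖z.2 a‖ ^ 2) / 2 -
    (∑ a, ∑ b ∈ Finset.univ.erase a, m a * m b / ‖z.1 b - z.1 a‖) / 2

/-- The phase space in the centre of mass frame: no collisions, `∑ m_a q_a = 0`, `∑ m_a v_a = 0`. -/
def phaseSpace {n : ℕ} (m : Fin n → ℝ) : Set (Ph n) :=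
  {z | (∀ a b, a ≠ b → z.1 a ≠ z.1 b) ∧ ∑ a, (m a : ℂ) * z.1 a = 0 ∧ ∑ a, (m a : ℂ) * z.2 a = 0}

/-- `x = (q, v)` is a solution of Newton's equations on the time set `J`, in the centre of mass frame. -/
def IsSol {n : ℕ} (m : Fin n → ℝ) (J : Set ℝ) (x : ℝ → Ph n) : Prop :=
  ∀ t ∈ J, x t ∈ phaseSpace m ∧ HasDerivWithinAt x ((x t).2, acc m (x t).1) J t

/-- All mutual distances of the solution `x` are `T`-periodic functions of time. -/
def DistPer {n : ℕ} (x : ℝ → Ph n) (T : ℝ) : Prop :=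
  ∀ t a b, ‖(x (t + T)).1 a - (x (t + T)).1 b‖ = ‖(x t).1 a - (x t).1 b‖

/-- All mutual distances are constant: a relative equilibrium. -/
def IsRelEq {n : ℕ} (x : ℝ → Ph n) : Prop :=
  ∀ t a b, ‖(x t).1 a - (x t).1 b‖ = ‖(x 0).1 a - (x 0).1 b‖

/-- Lyapunov stability of an orbit `γ` in the centre of mass frame: for every neighbourhood `U₁` there is
a neighbourhood `U₂` such that every solution on `[0, ∞)` that starts in `U₂` stays in `U₁`. -/
def LyapunovStable {n : ℕ} (m : Fin n → ℝ) (γ : Set (Ph n)) : Prop :=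
  ∀ U₁ : Set (Ph n), IsOpen U₁ → γ ⊆ U₁ → ∃ U₂ : Set (Ph n), IsOpen U₂ ∧ γ ⊆ U₂ ∧
    ∀ y : ℝ → Ph n, IsSol m (Set.Ici 0) y → y 0 ∈ U₂ → ∀ t : ℝ, 0 ≤ t → y t ∈ U₁

/-- Families through a Lyapunov stable relative periodic orbit of the planar `n`-body problem. Let
`s ↦ y s` be a `C^2` family of relative periodic solutions whose mutual distances have the period `S s`,
and suppose that `y 0` is not a relative equilibrium and that its orbit is Lyapunov stable. Then near
`s = 0` neither the rotation `c` by which the solution turns during two periods of the distances nor the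
Kepler quantity `S(s)^2 E(s)^3` (`E` the energy) depends on `s`. -/
theorem result {n : ℕ} {m : Fin n → ℝ} (hn : 2 ≤ n) (hm : ∀ a, 0 < m a) {y : ℝ → ℝ → Ph n}
    (hC : ContDiff ℝ 2 (fun p : ℝ × ℝ => y p.1 p.2)) (hy : ∀ s, IsSol m Set.univ (y s))
    {S : ℝ → ℝ} (hS : Differentiable ℝ S) (hS0 : ∀ s, 0 < S s) (hper : ∀ s, DistPer (y s) (S s))
    (hne : ¬ IsRelEq (y 0)) (hst : LyapunovStable m (Set.range (y 0))) :
    ∃ c : ℂ, ‖c‖ = 1 ∧ ∃ ε : ℝ, 0 < ε ∧ ∀ s : ℝ, |s| < ε →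
      (∀ t, y s (t + 2 * S s) = c • y s t) ∧
      S s ^ 2 * energy m (y s 0) ^ 3 = S 0 ^ 2 * energy m (y 0 0) ^ 3 :=
  Pool.Agent.W821.TB.rigid hn hm hC hy hS hS0 hper hne hst

end Pool.Agent.Results.MP_5027f4_mp.FamiliesThroughStableOrbits
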