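import Pool.Agent.W821.TB.Final

set_option autoImplicit false

namespace Pool.Agent.Results.MP_5027f4_mp.StableOrbitsLockRotations

/-- Phase points of `n` bodies in the plane `ℂ`: positions and velocities (product topology). -/
abbrev Ph (n : ℕ) := (Fin n → ℂ) × (Fin n → ℂ)

/-- Newtonian acceleration of body `a`: `∑_{b ≠ a} m_b (q_b - q_a) / |q_b - q_a|^3`. -/
noncomputable def acc {n : ℕ} (m : Fin n → ℝ) (q : Fin n → ℂ) (a : Fin n) : ℂ :=
  ∑ b ∈ Finset.univ.erase a, ((m b / ‖q b - q a‖ ^ 3 : ℝ) : ℂ) * (q b - q a)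

/-- The phase space in the centre of mass frame: no collisions, `∑ m_a q_a = 0`, `∑ m_a v_a = 0`. -/
def phaseSpace {n : ℕ} (m : Fin n → ℝ) : Set (Ph n) :=
  {z | (∀ a b, a ≠ b → z.1 a ≠ z.1 b) ∧ ∑ a, (m a : ℂ) * z.1 a = 0 ∧ ∑ a, (m a : ℂ) * z.2 a = 0}

/-- `x = (q, v)` is a solution of Newton's equations on the time set `J`, in the centre of mass frame. -/
def IsSol {n : ℕ} (m : Fin n → ℝ) (J : Set ℝ) (x : ℝ → Ph n) : Prop :=
  ∀ t ∈ J, x t ∈ phaseSpace m ∧ HasDerivWithinAt x ((x t).2, acc m (x t).1) J t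

/-- All mutual distances of the solution `x` are `T`-periodic functions of time. -/
def DistPer {n : ℕ} (x : ℝ → Ph n) (T : ℝ) : Prop :=
  ∀ t a b, ‖(x (t + T)).1 a - (x (t + T)).1 b‖ = ‖(x t).1 a - (x t).1 b‖

/-- All mutual distances are constant: a relative equilibrium. -/
def IsRelEq {n : ℕ} (x : ℝ → Ph n) : Prop :=
  ∀ t a b, ‖(x t).1 a - (x t).1 b‖ = ‖(x 0).1 a - (x 0).1 b‖

/-- Lyapunov stability of an orbit `γ` in the centre of mass frame: for every neighbourhood `U₁` there is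
a neighbourhood `U₂` such that every solution on `[0, ∞)` that starts in `U₂` stays in `U₁`. -/
def LyapunovStable {n : ℕ} (m : Fin n → ℝ) (γ : Set (Ph n)) : Prop :=
  ∀ U₁ : Set (Ph n), IsOpen U₁ → γ ⊆ U₁ → ∃ U₂ : Set (Ph n), IsOpen U₂ ∧ γ ⊆ U₂ ∧
    ∀ y : ℝ → Ph n, IsSol m (Set.Ici 0) y → y 0 ∈ U₂ → ∀ t : ℝ, 0 ≤ t → y t ∈ U₁

/-- Structure of Lyapunov stable relative periodic orbits of the planar `n`-body problem. If the orbit
`γ = Set.range x` of a relative periodic solution is Lyapunov stable in the centre of mass frame, then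
either `x` is a relative equilibrium, or the rotations preserving `γ` are exactly the `K`-th roots of
unity for some `K ≥ 1` and there is a neighbourhood `U` of `γ` such that every rotation that maps the
closure of the forward orbit of a solution starting in `U` into itself is one of them, and every relative
periodic solution starting in `U` (in particular `x`) is periodic: if its mutual distances have period
`S`, then it has period `2 K S`. -/
theorem result {n : ℕ} {m : Fin n → ℝ} (hn : 2 ≤ n) (hm : ∀ a, 0 < m a) {x : ℝ → Ph n}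
    (hx : IsSol m Set.univ x) {T : ℝ} (hT0 : 0 < T) (hT : DistPer x T)
    (hst : LyapunovStable m (Set.range x)) :
    IsRelEq x ∨ ∃ K : ℕ, 1 ≤ K ∧
      (∀ c : ℂ, ‖c‖ = 1 → ((∀ t, c • x t ∈ Set.range x) ↔ c ^ K = 1)) ∧
      ∃ U : Set (Ph n), IsOpen U ∧ Set.range x ⊆ U ∧
        (∀ y : ℝ → Ph n, IsSol m (Set.Ici 0) y → y 0 ∈ U → ∀ c : ℂ, ‖c‖ = 1 →
          (∀ z ∈ closure (y '' Set.Ici 0), c • z ∈ closure (y '' Set.Ici 0)) → c ^ K = 1) ∧
        (∀ y : ℝ → Ph n, IsSol m Set.univ y → y 0 ∈ U → ∀ S : ℝ, 0 < S → DistPer y S →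
          ∀ t, y (t + 2 * K * S) = y t) :=
  Pool.Agent.W821.TB.final hn hm hx hT0 hT hst

end Pool.Agent.Results.MP_5027f4_mp.StableOrbitsLockRotations
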